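import Pool.Agent.Q102.RG.Arb

/-!
MP_e5dbd3_co, Q1: every graph `G` of reduced genus `g` whose clique number is at least
`310 (g + 1)` has point arboricity at most `1 + ⌊ω(G) / 2⌋`.
-/

namespace Pool.Agent.Results.MP_e5dbd3_co.LargeCliqueNumber

open Q102.RG

/-- The point arboricity: the least number of parts in a partition of the vertex set all of whose
parts induce forests. -/
noncomputable def pointArboricity {V : Type} (G : SimpleGraph V) : ℕ :=
  sInf {n : ℕ | ∃ c : V → Fin n, ∀ i, (G.induce {v | c v = i}).IsAcyclic}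

theorem result (g : ℕ) : ∃ P : ℕ, P ≤ 310 * (g + 1) ∧
    ∀ (V : Type) [Finite V] (G : SimpleGraph V), HasReducedGenus G g → P ≤ G.cliqueNum →
      pointArboricity G ≤ 1 + G.cliqueNum / 2 := by
  refine ⟨310 * (g + 1), le_rfl, fun V _ G hred hω => ?_⟩
  have : Fintype V := Fintype.ofFinite V
  obtain ⟨c, hc⟩ := exists_forests g hred hω
  refine Nat.sInf_le ⟨c, fun i => ?_⟩
  have h1 := (hc i).isAcyclic
  have h2 : {v | v ∈ (Finset.univ : Finset V) ∧ c v = i} = {v | c v = i} := by
    ext v
    simp
  rw [h2] at h1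
  exact h1

end Pool.Agent.Results.MP_e5dbd3_co.LargeCliqueNumber
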